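import Pool.Agent.Lib.MP_75051e_gt.Taut

set_option autoImplicit false

open Pool.Agent.Lib.MP_75051e_gt Pool.Agent.Lib.MP_75051e_gt.Gluing

/-- If a veering triangulation has a colour cycle that crosses an odd number of faces of its own
colour and is trivial in `H_1 / torsion`, then infinitely many veering triangulations have the
same taut polynomial. -/
theorem Pool.Agent.Results.MP_75051e_gt.OddCycle.result
    (V : Gluing) (hV : V.IsVeering) (b : ℕ) (φ : V.T × Bool → (Fin b → ℤ)) (hφ : IsFreeAb φ)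
    (c : Bool) (f : V.T × Bool) (hf : OddNullCycle φ c f) :
    ∃ W : ℕ → Gluing, (∀ k, (W k).IsVeering) ∧
      (Function.Injective fun k => Fintype.card (W k).T) ∧
      ∀ k, ∃ φ' : (W k).T × Bool → (Fin b → ℤ), IsFreeAb φ' ∧
        fitting (GR b) (TautModule φ') = fitting (GR b) (TautModule φ) ∧
        ∀ Θ : GR b, IsTautPoly φ' Θ ↔ IsTautPoly φ Θ := by
  obtain ⟨W, h1, h2, h3⟩ := infinite_family V hV φ hφ c f hf
  refine ⟨W, h1, h2, fun k => ?_⟩
  obtain ⟨φ', h4, h5⟩ := h3 k
  exact ⟨φ', h4, h5, fun Θ => by rw [IsTautPoly, IsTautPoly, h5]⟩
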